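import Mathlib
import Pool.Agent.H329R2.AD.Defs
import Pool.Agent.H329R2.AD.G2

/-!
# A positive proportion, with an explicit constant, of the conjectured additive divisor asymptotic

For `r ≥ 3` and `h ≥ 1` the conjectured leading term of `∑_{n ≤ x} d_r(n) d_r(n+h)` is
`SS r h / ((r-1)!)² · x (log x)^{2(r-1)}`, with `SS r h = ∑_e c_e(h) Pr(r-1,e)²` the singular series. The lower bound
below gives the fraction `1 - (1 - r/2^{r-1})² - o(1)` of it: `15/16` for `r = 3`, `3/4` for `r = 4`.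
-/

set_option autoImplicit false

open Finset Filter Topology Pool.Agent.H329R2.AD

namespace Pool.Agent.Results.MP_122e00_nt.LowerProportion

theorem result (r h : ℕ) (hr : 3 ≤ r) (hh : 1 ≤ h) : 0 < SS r h ∧
    ∀ c : ℝ, c < 1 - (1 - r / 2 ^ (r - 1)) ^ 2 → ∀ᶠ x : ℕ in atTop,
      c * (SS r h / ((r - 1).factorial : ℝ) ^ 2 * x * Real.log x ^ (2 * (r - 1))) ≤
        ∑ n ∈ Icc 1 x, dk r n * dk r (n + h) :=
  Pool.Agent.H329R2.AD.main r h hr hh

end Pool.Agent.Results.MP_122e00_nt.LowerProportion
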